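import Pool.Agent.H17.PR.Pat

set_option autoImplicit false

/-!
# Pattern programs: the theorem
-/

namespace Pool.Agent.H17.PR

open Pool.Agent.H1.NP Pool.Agent.H1.PNP Pool.Agent.H68.OQP Pool.Agent.H68.BP
open Pool.Agent.H68.NPH hiding prs
open Function

/-- the rows of a pattern program -/
noncomputable def gA (W : ℕ) (Bs : List Blk) : Kg := Kg.many Bs (fun b => b.gR W b.rows)

/-- an entry for each occurrence of a forbidden pattern -/
noncomputable def gF (Bs : List Blk) : Kg :=
  Kg.many Bs (fun b => if b.fls then b.gR 0 [fun _ => .con 0] else .nil)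

/-- the output -/
noncomputable def gO (W : ℕ) (Bs : List Blk) : Gn :=
  cV.iteG (.seq ((gA W Bs).pr p2) (.seq (.bit true) (.seq (.bit false)
    (.seq ((gA W Bs).pr p1) ((gF Bs).pr p3))))) .nil

theorem code_end (n : ℕ) (L : List (List ℕ)) : ∃ w, code n L = w ++ [false] := by
  rw [code_eq]
  rcases List.eq_nil_or_concat (n :: L.flatten) with h | ⟨l, x, h⟩
  · cases h
  · rw [h, List.concat_eq_append]
    refine ⟨unary l ++ List.replicate x true, ?_⟩
    rw [Pool.Agent.H1.NP.unary_append]
    simp [unary]

theorem not_code (n n' F : ℕ) (L L' : List (List ℕ)) :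
    code n L ≠ code n' L' ++ List.replicate (F + 1) true := by
  obtain ⟨w, hw⟩ := code_end n L
  intro h
  rw [hw, List.replicate_succ', ← List.append_assoc] at h
  have := (List.append_inj' h rfl).2
  simp at this

theorem csp_nil {τ : Sig} {B : Type} (𝔹 : Str τ B) : CSP 𝔹 [] = false := by
  by_contra h
  rw [Bool.not_eq_false] at h
  obtain ⟨n, L, -, h2⟩ := csp_true 𝔹 h
  obtain ⟨w, hw⟩ := code_end n L
  rw [hw] at h2
  simp at h2

theorem csp_bad {τ : Sig} {B : Type} (𝔹 : Str τ B) (n F : ℕ) (L : List (List ℕ)) :
    CSP 𝔹 (code n L ++ List.replicate (F + 1) true) = false := by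
  by_contra h
  rw [Bool.not_eq_false] at h
  obtain ⟨n', L', -, h2⟩ := csp_true 𝔹 h
  exact not_code _ _ _ _ _ h2

theorem flatMap_sum (R : List (List ℕ)) :
    R.flatMap (fun r => List.replicate r.sum true) = List.replicate (R.map List.sum).sum true := by
  induction R with
  | nil => rfl
  | cons r R ih => rw [List.flatMap_cons, ih, List.map_cons, List.sum_cons, List.replicate_add]

theorem flatMap_one (R : List (List ℕ)) :
    R.flatMap (fun _ => [true]) = List.replicate R.length true := by
  induction R with
  | nil => rfl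
  | cons r R ih => rw [List.flatMap_cons, ih, List.length_cons, List.replicate_succ]; rfl

theorem flatMap_unary (R : List (List ℕ)) : R.flatMap unary = unary R.flatten := by
  induction R with
  | nil => rfl
  | cons r R ih => rw [List.flatMap_cons, ih, List.flatten_cons,
    Pool.Agent.H1.NP.unary_append]

theorem le_sum_of_mem {R : List (List ℕ)} {r : List ℕ} (hr : r ∈ R) (i : ℕ) :
    r.getD i 0 ≤ (R.map List.sum).sum := by
  refine le_trans ?_ (List.single_le_sum (fun _ _ => Nat.zero_le _) _ (List.mem_map_of_mem hr))
  rw [List.getD_eq_getElem?_getD]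
  rcases lt_or_ge i r.length with h | h
  · rw [List.getElem?_eq_getElem h]
    exact List.single_le_sum (fun _ _ => Nat.zero_le _) _ (List.getElem_mem h)
  · rw [List.getElem?_eq_none h]
    exact Nat.zero_le _

theorem gO_out (W : ℕ) (Bs : List Blk) (M : List ℕ) (h : cV.tv M []) :
    (gO W Bs).out M [] = code ((((gA W Bs).out M []).map List.sum).sum + 1) ((gA W Bs).out M []) ++
      List.replicate ((gF Bs).out M []).length true := by
  unfold gO
  rw [Cd.iteG_out, if_pos h]
  simp only [Gn.out]
  rw [Kg.pr_out M p2 (fun r => List.replicate r.sum true) (fun f env => p2_out M f env),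
    Kg.pr_out M p1 unary (fun f env => p1_out M f env),
    Kg.pr_out M p3 (fun _ => [true]) (fun f env => p3_out M f env),
    flatMap_sum, flatMap_unary, flatMap_one, code_eq]
  rw [unary_cons', List.replicate_succ']
  simp only [List.append_assoc, List.nil_append, List.cons_append]

theorem pat : T_PAT := by
  intro τ Bs
  refine ⟨fun x => (gO (τ.width + 1) Bs).out (ph 3 x) [],
    ((polyOn_numsR.comp (polyOn_lg (lgF 3))).comp (polyOn_gen (gO (τ.width + 1) Bs))).congr
      (fun q => q) (fun _ => rfl) (fun _ => rfl), ?_, ?_⟩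
  · intro B 𝔹 x hx
    have hc : ¬ cV.tv (ph 3 x) [] := by
      intro h
      have h' : cV.tv (ph (Sig.digraph.width + 1) x) [] := by
        rw [width_digraph]
        exact h
      obtain ⟨n, L, h1, h2⟩ := code_of_cV (σ := Sig.digraph) h'
      refine hx ⟨n, L, ?_, h2⟩
      intro c hc
      have := h1 c hc
      rw [width_digraph] at this
      exact this
    have : (gO (τ.width + 1) Bs).out (ph 3 x) [] = [] := by
      unfold gO
      rw [Cd.iteG_out, if_neg hc]
      rfl
    simp only
    rw [this]
    exact csp_nil 𝔹
  · intro B hB 𝔹 n L hL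
    have hcV : cV.tv (ph 3 (code n L)) [] := by
      obtain ⟨M, hM, h0, -, -, h3, -⟩ := ph_vals (σ := Sig.digraph) (n := n) (L := L) (by
        rw [width_digraph]; exact hL)
      rw [width_digraph] at hM
      have hM' : ph 3 (code n L) = M := hM
      rw [hM']
      simp only [cV, tv_and, tv_le, tv_eq, Ex.val, h0, h3]
      exact ⟨le_rfl, trivial⟩
    set M := ph 3 (code n L) with hM
    simp only
    rw [gO_out _ _ _ hcV]
    set R := (gA (τ.width + 1) Bs).out M [] with hR
    have hmem : ∀ x, x ∈ R ↔ ∃ b ∈ Bs, ∃ h, b.Occ n L h ∧ ∃ r ∈ b.rows,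
        x = (List.range (τ.width + 1)).map (fun i => (r i).val n h) := by
      intro x
      rw [hR]
      unfold gA
      rw [Kg.mem_many]
      refine exists_congr fun b => and_congr_right fun _ => ?_
      exact Blk.mem_gR hL b _ _ x
    have hfls : ((gF Bs).out M []) = [] ↔ ∀ b ∈ Bs, b.fls = true → ∀ h, ¬ b.Occ n L h := by
      rw [List.eq_nil_iff_forall_not_mem]
      unfold gF
      constructor
      · intro h b hb hf h' hocc
        refine h [] ?_
        rw [Kg.mem_many]
        refine ⟨b, hb, ?_⟩
        rw [if_pos hf]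
        exact (Blk.mem_gR hL b 0 _ []).2 ⟨h', hocc, _, List.mem_singleton.2 rfl, rfl⟩
      · intro h x hx
        rw [Kg.mem_many] at hx
        obtain ⟨b, hb, hx⟩ := hx
        by_cases hf : b.fls = true
        · rw [if_pos hf] at hx
          obtain ⟨h', hocc, -⟩ := (Blk.mem_gR hL b 0 _ x).1 hx
          exact h b hb hf h' hocc
        · rw [if_neg hf] at hx
          exact Kg.mem_nil.1 hx
    have hlen : ∀ c ∈ R, c.length = τ.width + 1 := by
      intro c hc
      obtain ⟨b, -, h, -, r, -, rfl⟩ := (hmem c).1 hc
      simp
    rcases hF : ((gF Bs).out M []) with _ | ⟨a, F⟩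
    · rw [← hfls]
      simp only [hF, List.length_nil, List.replicate_zero, List.append_nil, true_and]
      rw [csp_code 𝔹 hlen]
      have hget : ∀ (g : ℕ → ℕ) (i : ℕ), i < τ.width + 1 →
          ((List.range (τ.width + 1)).map g).getD i 0 = g i := by
        intro g i hi
        rw [List.getD_eq_getElem?_getD, List.getElem?_map, List.getElem?_range hi]
        rfl
      have har : ∀ (l : Fin τ.m) (i : Fin (τ.ar l)), (i : ℕ) + 1 < τ.width + 1 := by
        intro l i
        have : τ.ar l ≤ τ.width := Finset.le_sup (f := τ.ar) (Finset.mem_univ l)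
        have := i.2
        omega
      constructor
      · rintro ⟨f, hf⟩
        refine ⟨fun v => if h : v < (R.map List.sum).sum + 1 then f ⟨v, h⟩ else hB.some, ?_⟩
        intro b hb h hocc r hr l hl
        have hin := (hmem _).2 ⟨b, hb, h, hocc, r, hr, rfl⟩
        have hlt : ∀ i : Fin (τ.ar l), (r (i + 1)).val n h < (R.map List.sum).sum + 1 := by
          intro i
          have := le_sum_of_mem hin (i + 1)
          rw [hget _ _ (har l i)] at this
          omega
        have h5 := hf l (fun i => ⟨(r (i + 1)).val n h, hlt i⟩) ⟨_, hin, ?_, ?_⟩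
        · simp only [hlt, dif_pos]
          exact h5
        · rw [hget _ 0 (by omega)]
          exact hl
        · intro i
          rw [hget _ _ (har l i)]
      · rintro ⟨f, hf⟩
        refine ⟨fun v => f v, ?_⟩
        rintro l x ⟨c, hc, h1, h2⟩
        obtain ⟨b, hb, h, hocc, r, hr, rfl⟩ := (hmem c).1 hc
        rw [hget _ 0 (by omega)] at h1
        have h5 := hf b hb h hocc r hr l h1
        have h6 : (fun i : Fin (τ.ar l) => f ((r (i + 1)).val n h)) = fun i => f (x i) := by
          funext i
          have := h2 i
          rw [hget _ _ (har l i)] at this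
          rw [this]
        rw [h6] at h5
        exact h5
    · rw [List.length_cons, csp_bad]
      constructor
      · intro h
        cases h
      · rintro ⟨h1, -⟩
        have := hfls.2 h1
        rw [hF] at this
        cases this

end Pool.Agent.H17.PR
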