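import Pool.Agent.H68.BG.KO

set_option autoImplicit false

/-!
# The construction of the oriented graph

This is the construction of `H68.BG.KO` together with the combinatorial description of the
instances.
-/

namespace Pool.Agent.H17.PR

open FirstOrder FirstOrder.Language Pool.Agent.H74.Stub Function
open Pool.Agent.H17 Pool.Agent.H17.DG
open Pool.Agent.H68.BG

theorem constructionO2 (k : ℕ) (L : FirstOrder.Language.{0, 0}) (A : Type) [L.Structure A]
    (hA : DG.InScope L A) :
    ∃ (G : Type) (E : G → G → Prop), DG.OrientedTemplate k G E ∧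
      (@PPConstructs Dig G (digStr E) Dig (Fin 3) K3 ↔ @PPConstructs L A _ Dig (Fin 3) K3) ∧
      (∃ S : ∀ n, L.Relations n → Set (Fin n × Fin (k + 1) → G), (∀ n R, PFD E (S n R)) ∧
        ∀ (X : Type) [L.Structure X], Nonempty (L.Hom X A) ↔
          ∃ f : X → Fin (k + 1) → G, ∀ (n : ℕ) (R : L.Relations n) (t : Fin n → X),
            Structure.RelMap R t → (fun p : Fin n × Fin (k + 1) => f (t p.1) p.2) ∈ S n R) ∧
      ∃ (m : ℕ) (l : List (Atom L (Fin (k + 1) → Fin m))), 2 ≤ m ∧
        ∀ (X : Type) [Finite X] (F : X → X → Prop), (∃ h : X → G, IsHomo F E h) ↔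
          (∀ x y, F x y → ¬ F y x) ∧ ∃ c : (Fin (k + 1) → X) → A, ∀ x : Fin m → X,
            (∀ i j, i < j → F (x i) (x j)) → ∀ a ∈ l, a.Holds (fun p => c (fun i => x (p i))) := by
  classical
  obtain ⟨⟨hrel, hfin⟩, hcount, hne, LB, sB, hLB, hB, hFB, hR⟩ := hA
  have hrelB := hLB.1
  obtain ⟨G, hG, C, hC⟩ := exists_isGen k A (sm_pos L A k) (QQ L A k) (QQ_loc L A k)
  have hsm := sm_large L A k
  have hcommon : ∀ a : A, ∃ z : Fin (k + 1) → G, Tr C.arc z ∧ C.col z = a := by
    intro a
    obtain ⟨z, h1, h2, -⟩ := hC.common (QQ_loc L A k) (n := 0) (by omega) (fun i => i.elim0) a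
    exact ⟨z, h1, h2⟩
  have hGne : Nonempty G := by
    obtain ⟨z, -⟩ := hcommon (Classical.arbitrary A)
    exact ⟨z 0⟩
  have hno := noAlg hC
  have hinf : Infinite G := by
    obtain ⟨x⟩ := hGne
    have h1 := hno ∅ x (by simp)
    exact Set.infinite_univ_iff.1 (h1.mono (Set.subset_univ _))
  have hpp : @PPConstructs Dig G (digStr C.arc) L A _ := ppConstructs_template hC
  have hirr : ∀ x, ¬ C.arc x x := fun x h => C.asymm x x h h
  refine ⟨G, C.arc, ⟨?_, hinf, C.asymm, kHomog hC, hno⟩, ?_, ?_, ?_⟩
  · let _ := digStr C.arc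
    exact ⟨finRel_dig, hG, hGne, LBp LB k, strB LB C, finRel_LBp hLB k, homogB hB hC hR,
      finitelyBounded hLB hB hFB hC hR, reductB⟩
  · constructor
    · intro h
      exact k3_of_generic (lQ L A k) hC (by omega) h
    · intro h
      let _ := digStr C.arc
      let _ := K3
      exact ppConstructs_trans hpp h
  · let S : ∀ n, L.Relations n → Set (Fin n × Fin (k + 1) → G) := fun n R =>
      if h : ∃ x : Fin n → A, Structure.RelMap R x then
        {x | RT L C ⟨⟨n, R⟩, h⟩ (fun i j => x (i, j))} else ∅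
    have hS1 : ∀ n (R : L.Relations n) (h : ∃ x : Fin n → A, Structure.RelMap R x),
        S n R = {x | RT L C ⟨⟨n, R⟩, h⟩ (fun i j => x (i, j))} := fun n R h => dif_pos h
    have hS2 : ∀ n (R : L.Relations n) (h : ¬ ∃ x : Fin n → A, Structure.RelMap R x),
        S n R = ∅ := fun n R h => dif_neg h
    refine ⟨S, fun n R => ?_, fun X _ => ?_⟩
    · by_cases h : ∃ x : Fin n → A, Structure.RelMap R x
      · rw [hS1 n R h]
        exact pfd_rt ⟨⟨n, R⟩, h⟩
      · rw [hS2 n R h]
        exact pfd_empty hirr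
    · constructor
      · rintro ⟨φ⟩
        choose κ hκ1 hκ2 using hcommon
        refine ⟨fun x => κ (φ x), fun n R t ht => ?_⟩
        have h1 : Structure.RelMap R (fun i => φ (t i)) := φ.map_rel' R t ht
        have h : ∃ x : Fin n → A, Structure.RelMap R x := ⟨_, h1⟩
        rw [hS1 n R h]
        have h2 : RT L C ⟨⟨n, R⟩, h⟩ (fun i => κ (φ (t i))) := by
          rw [rt_iff hC]
          refine ⟨fun i => hκ1 _, ?_⟩
          have e : (fun i => C.col (κ (φ (t i)))) = fun i => φ (t i) := funext fun i => hκ2 _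
          change Structure.RelMap R (fun i => C.col (κ (φ (t i))))
          rw [e]
          exact h1
        exact h2
      · rintro ⟨f, hf⟩
        refine ⟨{ toFun := fun x => C.col (f x)
                  map_fun' := fun F => isEmptyElim F
                  map_rel' := ?_ }⟩
        intro n R t ht
        have h1 := hf n R t ht
        by_cases h : ∃ x : Fin n → A, Structure.RelMap R x
        · rw [hS1 n R h] at h1
          exact ((rt_iff hC _ _).1 h1).2
        · rw [hS2 n R h] at h1
          exact absurd h1 (Set.notMem_empty _)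
  · refine ⟨sm L A k, lQ L A k, by omega, fun X _ F => ?_⟩
    have : Countable X := Finite.to_countable
    exact hC.csp_iff F

end Pool.Agent.H17.PR
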