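import Pool.Agent.H17.PR.PatD
import Pool.Agent.H17.FK.Link

set_option autoImplicit false

/-!
# Adding a clique: from a graph to its link graph
-/

namespace Pool.Agent.H17.PR

open Pool.Agent.H1.NP Pool.Agent.H1.PNP Pool.Agent.H68.OQP Pool.Agent.H68.BP
open Pool.Agent.H68.NPH hiding prs
open Function
open Pool.Agent.H17.DG (IsHomo)
open Pool.Agent.H17.FK (Jn)

/-- the new vertex number `i` -/
def nw (i : ℕ) : Pe 2 := .add .bd (.con i)

/-- the arcs which are printed for an arc -/
def jOut (k : ℕ) : List (Pe 2 × Pe 2) :=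
  (.vx 0, .vx 1) :: ((List.range k).flatMap (fun i =>
    [(.vx 0, nw i), (.vx 1, nw i), (nw i, .vx 0), (nw i, .vx 1)]) ++
    (List.range k).flatMap (fun i => (List.range k).flatMap (fun j =>
      if i = j then [] else [(nw i, nw j)])))

/-- the block -/
def jBlk (k : ℕ) : DBlk where
  q := 2
  arcs := [(0, 1)]
  cov := by
    intro v
    refine ⟨(0, 1), by simp, ?_⟩
    fin_cases v
    · exact Or.inl rfl
    · exact Or.inr rfl
  out := jOut k
  fls := false

theorem jOut_iff {k : ℕ} {P : Pe 2 × Pe 2 → Prop} :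
    (∀ p ∈ jOut k, P p) ↔ P (.vx 0, .vx 1) ∧
      (∀ i, i < k → P (.vx 0, nw i) ∧ P (.vx 1, nw i) ∧ P (nw i, .vx 0) ∧ P (nw i, .vx 1)) ∧
      ∀ i j, i < k → j < k → i ≠ j → P (nw i, nw j) := by
  constructor
  · intro h
    refine ⟨h _ (List.mem_cons_self ..), fun i hi => ?_, fun i j hi hj hij => ?_⟩
    · have hm : ∀ p ∈ ([(.vx 0, nw i), (.vx 1, nw i), (nw i, .vx 0), (nw i, .vx 1)] :
          List (Pe 2 × Pe 2)), P p := by
        intro p hp
        refine h p (List.mem_cons_of_mem _ (List.mem_append_left _ ?_))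
        exact List.mem_flatMap.2 ⟨i, List.mem_range.2 hi, hp⟩
      refine ⟨hm _ ?_, hm _ ?_, hm _ ?_, hm _ ?_⟩ <;> simp
    · refine h _ (List.mem_cons_of_mem _ (List.mem_append_right _ ?_))
      refine List.mem_flatMap.2 ⟨i, List.mem_range.2 hi, ?_⟩
      refine List.mem_flatMap.2 ⟨j, List.mem_range.2 hj, ?_⟩
      rw [if_neg hij]
      exact List.mem_singleton.2 rfl
  · rintro ⟨h1, h2, h3⟩ p hp
    rcases List.mem_cons.1 hp with rfl | hp
    · exact h1
    · rcases List.mem_append.1 hp with hp | hp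
      · obtain ⟨i, hi, hp⟩ := List.mem_flatMap.1 hp
        obtain ⟨a1, a2, a3, a4⟩ := h2 i (List.mem_range.1 hi)
        simp only [List.mem_cons, List.not_mem_nil, or_false] at hp
        rcases hp with rfl | rfl | rfl | rfl
        · exact a1
        · exact a2
        · exact a3
        · exact a4
      · obtain ⟨i, hi, hp⟩ := List.mem_flatMap.1 hp
        obtain ⟨j, hj, hp⟩ := List.mem_flatMap.1 hp
        by_cases hij : i = j
        · rw [if_pos hij] at hp
          exact absurd hp List.not_mem_nil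
        · rw [if_neg hij] at hp
          rw [List.mem_singleton.1 hp]
          exact h3 i j (List.mem_range.1 hi) (List.mem_range.1 hj) hij

theorem jOcc {k n : ℕ} {L : List (List ℕ)} {h : Fin 2 → ℕ} :
    (jBlk k).Occ n L h ↔ Arc n L (h 0) (h 1) := by
  constructor
  · intro h1
    exact h1 ((0 : Fin 2), (1 : Fin 2)) (List.mem_cons_self ..)
  · intro h1 e he
    rcases List.mem_cons.1 he with rfl | he
    · exact h1
    · exact absurd he List.not_mem_nil

/-- Adding a clique. -/
theorem manyOne_join {k : ℕ} {H G : Type} [Nonempty H] [Nonempty G] {E : H → H → Prop}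
    {F : G → G → Prop}
    (hJ : ∀ (D : Type) (_ : Countable D) (R : D → D → Prop),
      (∃ f : D → H, IsHomo R E f) ↔ ∃ h : Fin k ⊕ D → G, IsHomo (Jn k R) F h) :
    N793a5b8e.ManyOneReducible (CSP (graph E)) (CSP (graph F)) := by
  classical
  refine manyOne_patD [jBlk k] fun n L hL => ?_
  have hfls : (∀ b ∈ [jBlk k], b.fls = true → ∀ h, ¬ b.Occ n L h) := by
    intro b hb hb2
    rw [List.mem_singleton.1 hb] at hb2
    exact Bool.noConfusion hb2
  have key : ∀ f : ℕ → G, (∀ b ∈ [jBlk k], ∀ h, b.Occ n L h → ∀ p ∈ b.out,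
      F (f (p.1.val n h)) (f (p.2.val n h))) ↔
      ∀ u v, Arc n L u v → F (f u) (f v) ∧
        (∀ i, i < k → F (f u) (f (n + i)) ∧ F (f v) (f (n + i)) ∧ F (f (n + i)) (f u) ∧
          F (f (n + i)) (f v)) ∧
        ∀ i j, i < k → j < k → i ≠ j → F (f (n + i)) (f (n + j)) := by
    intro f
    rw [List.forall_mem_singleton]
    constructor
    · intro h1 u v huv
      have h2 := h1 ![u, v] (jOcc.2 huv)
      exact (jOut_iff (P := fun p => F (f (p.1.val n ![u, v])) (f (p.2.val n ![u, v])))).1 h2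
    · intro h1 h hocc
      have h2 := h1 (h (0 : Fin 2)) (h (1 : Fin 2)) (jOcc.1 hocc)
      exact (jOut_iff (P := fun p => F (f (p.1.val n h)) (f (p.2.val n h)))).2 h2
  constructor
  · rintro ⟨f, hf⟩
    refine ⟨hfls, ?_⟩
    obtain ⟨h, hh⟩ := (hJ (Fin n) inferInstance (fun u v : Fin n => Arc n L u v)).1 ⟨f, hf⟩
    let f' : ℕ → G := fun v => if hv : v < n then h (Sum.inr ⟨v, hv⟩) else
      if hk : v - n < k then h (Sum.inl ⟨v - n, hk⟩) else Classical.arbitrary G
    have f1 : ∀ v (hv : v < n), f' v = h (Sum.inr ⟨v, hv⟩) := fun v hv => dif_pos hv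
    have f2 : ∀ i (hi : i < k), f' (n + i) = h (Sum.inl ⟨i, hi⟩) := by
      intro i hi
      have e1 : ¬ n + i < n := by omega
      have e2 : n + i - n = i := by omega
      have e3 : n + i - n < k := by omega
      have e4 : f' (n + i) = h (Sum.inl ⟨n + i - n, e3⟩) := by
        change (if hv : n + i < n then h (Sum.inr ⟨n + i, hv⟩) else
          if hk : n + i - n < k then h (Sum.inl ⟨n + i - n, hk⟩) else Classical.arbitrary G) = _
        rw [dif_neg e1, dif_pos e3]
      rw [e4]
      congr 2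
      exact Fin.ext e2
    refine ⟨f', (key f').2 ?_⟩
    intro u v huv
    have hu := huv.1
    have hv := huv.2.1
    rw [f1 u hu, f1 v hv]
    refine ⟨hh _ _ huv, fun i hi => ?_, fun i j hi hj hij => ?_⟩
    · rw [f2 i hi]
      exact ⟨hh (Sum.inr _) (Sum.inl _) trivial, hh (Sum.inr _) (Sum.inl _) trivial,
        hh (Sum.inl _) (Sum.inr _) trivial, hh (Sum.inl _) (Sum.inr _) trivial⟩
    · rw [f2 i hi, f2 j hj]
      exact hh (Sum.inl _) (Sum.inl _) (fun h' => hij (congrArg Fin.val h'))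
  · rintro ⟨-, f, hf⟩
    have hf := (key f).1 hf
    by_cases hne : ∃ u v, Arc n L u v
    · obtain ⟨u₀, v₀, h₀⟩ := hne
      let D := {v : Fin n // ∃ w, Arc n L v w ∨ Arc n L w v}
      let R : D → D → Prop := fun u v => Arc n L u.1 v.1
      let h : Fin k ⊕ D → G := Sum.elim (fun i => f (n + i)) (fun v => f v.1)
      have hh : IsHomo (Jn k R) F h := by
        rintro (i | u) (j | v) huv
        · exact (hf u₀ v₀ h₀).2.2 i j i.2 j.2 (fun h' => huv (Fin.ext h'))
        · obtain ⟨w, hw | hw⟩ := v.2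
          · exact ((hf _ _ hw).2.1 i i.2).2.2.1
          · exact ((hf _ _ hw).2.1 i i.2).2.2.2
        · obtain ⟨w, hw | hw⟩ := u.2
          · exact ((hf _ _ hw).2.1 j j.2).1
          · exact ((hf _ _ hw).2.1 j j.2).2.1
        · exact (hf _ _ huv).1
      obtain ⟨g, hg⟩ := (hJ D inferInstance R).2 ⟨h, hh⟩
      refine ⟨fun v => if hv : ∃ w, Arc n L v w ∨ Arc n L w v then g ⟨v, hv⟩ else
        Classical.arbitrary H, fun u v huv => ?_⟩
      have hu : ∃ w, Arc n L u w ∨ Arc n L w u := ⟨v, Or.inl huv⟩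
      have hv : ∃ w, Arc n L v w ∨ Arc n L w v := ⟨u, Or.inr huv⟩
      simp only [dif_pos hu, dif_pos hv]
      exact hg ⟨u, hu⟩ ⟨v, hv⟩ huv
    · exact ⟨fun _ => Classical.arbitrary H, fun u v huv => absurd ⟨_, _, huv⟩ hne⟩

end Pool.Agent.H17.PR
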