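import Pool.Agent.H17.PR.PatD
import Pool.Agent.H68.IT.M3
import Pool.Agent.H17.FK.Link

set_option autoImplicit false

/-!
# Links: from the link graph to the graph
-/

namespace Pool.Agent.H17.PR

open Pool.Agent.H1.NP Pool.Agent.H1.PNP Pool.Agent.H68.OQP Pool.Agent.H68.BP
open Pool.Agent.H68.NPH hiding prs
open Function
open Pool.Agent.H17.DG (IsHomo)
open Pool.Agent.H17.FK (Lk Tr tr_tri eq_tri tri_castSucc tri_p1)
open Pool.Agent.H68.IT (orient orient_occ tArcs mem_tArcs tArcs_cov)

/-! ### The numbers of tuples -/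

/-- the number of a tuple in base `n` -/
def hor (n : ℕ) : (m : ℕ) → (Fin m → ℕ) → ℕ
  | 0, _ => 0
  | m + 1, t => hor n m (fun i => t i.castSucc) * n + t (Fin.last m)

/-- the expression -/
def horE {q : ℕ} : (m : ℕ) → (Fin m → Pe q) → Pe q
  | 0, _ => .con 0
  | m + 1, t => .add (.mul (horE m (fun i => t i.castSucc)) .bd) (t (Fin.last m))

theorem horE_val {q n : ℕ} {h : Fin q → ℕ} : ∀ (m : ℕ) (t : Fin m → Pe q),
    (horE m t).val n h = hor n m (fun i => (t i).val n h)
  | 0, _ => rfl
  | m + 1, t => by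
    change (horE m (fun i => t i.castSucc)).val n h * n + (t (Fin.last m)).val n h = _
    rw [horE_val m (fun i => t i.castSucc)]
    rfl

theorem hor_inj {n : ℕ} : ∀ (m : ℕ) {s t : Fin m → ℕ}, (∀ i, s i < n) → (∀ i, t i < n) →
    hor n m s = hor n m t → s = t
  | 0, _, _, _, _, _ => funext fun i => i.elim0
  | m + 1, s, t, hs, ht, h => by
    have h1 : hor n m (fun i => s i.castSucc) * n + s (Fin.last m) =
      hor n m (fun i => t i.castSucc) * n + t (Fin.last m) := h
    have hn : 0 < n := Nat.lt_of_le_of_lt (Nat.zero_le _) (hs (Fin.last m))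
    have h2 : s (Fin.last m) = t (Fin.last m) := by
      have := congrArg (fun a => a % n) h1
      simp only [Nat.mul_add_mod_self_right] at this
      rwa [Nat.mod_eq_of_lt (hs _), Nat.mod_eq_of_lt (ht _)] at this
    have h3 : hor n m (fun i => s i.castSucc) = hor n m (fun i => t i.castSucc) := by
      rw [h2] at h1
      exact Nat.eq_of_mul_eq_mul_right hn (Nat.add_right_cancel h1)
    have h4 := hor_inj m (fun i => hs i.castSucc) (fun i => ht i.castSucc) h3
    funext i
    refine Fin.lastCases h2 (fun j => ?_) i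
    exact congrFun h4 j

/-! ### Undirected patterns -/

section

variable {q : ℕ}

/-- the block of an orientation -/
def oD (EL : List (Fin q × Fin q)) (cov : ∀ v, ∃ e ∈ EL, e.1 = v ∨ e.2 = v)
    (out : List (Pe q × Pe q)) (o : Fin EL.length → Bool) : DBlk where
  q := q
  arcs := orient EL o
  cov := by
    intro v
    obtain ⟨e, he, h⟩ := cov v
    obtain ⟨k, rfl⟩ := List.get_of_mem he
    refine ⟨_, List.mem_map.2 ⟨k, List.mem_finRange k, rfl⟩, ?_⟩
    split_ifs
    · exact h
    · exact h.symm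
  out := out
  fls := false

/-- the blocks of all orientations -/
noncomputable def oDs (EL : List (Fin q × Fin q)) (cov : ∀ v, ∃ e ∈ EL, e.1 = v ∨ e.2 = v)
    (out : List (Pe q × Pe q)) : List DBlk :=
  (Finset.univ : Finset (Fin EL.length → Bool)).toList.map (oD EL cov out)

theorem oDs_fls {EL : List (Fin q × Fin q)} {cov : ∀ v, ∃ e ∈ EL, e.1 = v ∨ e.2 = v}
    {out : List (Pe q × Pe q)} {b : DBlk} (hb : b ∈ oDs EL cov out) : b.fls = false := by
  obtain ⟨o, -, rfl⟩ := List.mem_map.1 hb
  rfl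

theorem oDs_iff {EL : List (Fin q × Fin q)} {cov : ∀ v, ∃ e ∈ EL, e.1 = v ∨ e.2 = v}
    {out : List (Pe q × Pe q)} {n : ℕ} {L : List (List ℕ)} {B : Type} {E : B → B → Prop}
    {f : ℕ → B} :
    (∀ b ∈ oDs EL cov out, ∀ h, b.Occ n L h → ∀ p ∈ b.out,
      E (f (p.1.val n h)) (f (p.2.val n h))) ↔
    ∀ h : Fin q → ℕ, (∀ e ∈ EL, Arc n L (h e.1) (h e.2) ∨ Arc n L (h e.2) (h e.1)) →
      ∀ p ∈ out, E (f (p.1.val n h)) (f (p.2.val n h)) := by
  constructor
  · intro h1 h hh
    obtain ⟨o, ho⟩ := orient_occ.2 hh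
    exact h1 (oD EL cov out o) (List.mem_map.2 ⟨o, Finset.mem_toList.2 (Finset.mem_univ o),
      rfl⟩) h ho
  · intro h1 b hb h hocc
    obtain ⟨o, -, rfl⟩ := List.mem_map.1 hb
    exact h1 h (orient_occ.1 ⟨o, hocc⟩)

end

/-- the block of the loops -/
def lBlk : DBlk where
  q := 1
  arcs := [(0, 0)]
  cov := fun v => ⟨(0, 0), by simp, Or.inl (Subsingleton.elim _ _)⟩
  out := []
  fls := true

/-- the arc which is printed for a clique -/
def kOut (k : ℕ) : List (Pe (k + 2) × Pe (k + 2)) :=
  [(horE (k + 1) (fun i => .vx i.castSucc), horE (k + 1) (fun i => .vx (FK.p1 k i)))]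

/-- the blocks -/
noncomputable def kBlks (k : ℕ) : List DBlk :=
  lBlk :: oDs (tArcs (k + 2)) (tArcs_cov (by omega)) (kOut k)

theorem tr_iff {m n : ℕ} {L : List (List ℕ)} {h : Fin m → ℕ} :
    (∀ e ∈ tArcs m, Arc n L (h e.1) (h e.2) ∨ Arc n L (h e.2) (h e.1)) ↔
      Tr (fun u v => Arc n L u v ∨ Arc n L v u) h := by
  constructor
  · intro h1 i j hij
    rcases lt_or_gt_of_ne hij with h2 | h2
    · exact h1 (i, j) (mem_tArcs.2 h2)
    · exact (h1 (j, i) (mem_tArcs.2 h2)).symm
  · rintro h1 ⟨i, j⟩ he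
    exact h1 i j (mem_tArcs.1 he).ne

/-- Links. -/
theorem manyOne_links {k : ℕ} {H G : Type} [Nonempty H] {E : H → H → Prop}
    {F : G → G → Prop}
    (hJ : ∀ (X : Type) (_ : Countable X) (R : X → X → Prop),
      (∃ h : X → G, IsHomo R F h) ↔ (∀ x, ¬ R x x) ∧
        ∀ q : Fin k → X, ∃ g : X → H, ∀ y z, Lk (fun x y => R x y ∨ R y x) q y z →
          E (g y) (g z)) :
    N793a5b8e.ManyOneReducible (CSP (graph F)) (CSP (graph E)) := by
  classical
  refine manyOne_patD (kBlks k) fun n L hL => ?_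
  rw [hJ (Fin n) inferInstance (fun u v : Fin n => Arc n L u v)]
  have hs : ∀ x y : ℕ, (Arc n L x y ∨ Arc n L y x) → (Arc n L y x ∨ Arc n L x y) :=
    fun _ _ h => h.symm
  have hs' : ∀ x y : Fin n, (Arc n L x y ∨ Arc n L y x) → (Arc n L y x ∨ Arc n L x y) :=
    fun _ _ h => h.symm
  have hl : (∀ b ∈ kBlks k, b.fls = true → ∀ h, ¬ b.Occ n L h) ↔ ∀ x : Fin n, ¬ Arc n L x x := by
    constructor
    · intro h1 x hx
      refine h1 lBlk (List.mem_cons_self ..) rfl (fun _ : Fin 1 => (x : ℕ)) ?_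
      intro e he
      exact hx
    · intro h1 b hb hb2 h hocc
      rcases List.mem_cons.1 hb with rfl | hb
      · have h2 : Arc n L (h (0 : Fin 1)) (h (0 : Fin 1)) :=
          hocc ((0 : Fin 1), (0 : Fin 1)) (List.mem_cons_self ..)
        exact h1 ⟨h (0 : Fin 1), h2.1⟩ h2
      · exact Bool.noConfusion ((oDs_fls hb).symm.trans hb2)
  have key : ∀ f : ℕ → H, (∀ b ∈ kBlks k, ∀ h, b.Occ n L h → ∀ p ∈ b.out,
      E (f (p.1.val n h)) (f (p.2.val n h))) ↔
      ∀ x : Fin (k + 2) → Fin n, Tr (fun u v : Fin n => Arc n L u v ∨ Arc n L v u) x →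
        E (f (hor n (k + 1) (fun i => x i.castSucc)))
          (f (hor n (k + 1) (fun i => x (FK.p1 k i)))) := by
    intro f
    constructor
    · intro h1 x hx
      have h2 := (oDs_iff (EL := tArcs (k + 2)) (cov := tArcs_cov (by omega))
        (out := kOut k) (n := n) (L := L) (E := E) (f := f)).1
        (fun b hb => h1 b (List.mem_cons_of_mem _ hb)) (fun i => (x i : ℕ)) (tr_iff.2 hx) _
        (List.mem_singleton.2 rfl)
      simp only [horE_val] at h2
      exact h2
    · intro h1 b hb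
      rcases List.mem_cons.1 hb with rfl | hb
      · intro h _ p hp
        exact absurd hp List.not_mem_nil
      · refine (oDs_iff (EL := tArcs (k + 2)) (cov := tArcs_cov (by omega))
          (out := kOut k) (n := n) (L := L) (E := E) (f := f)).2 ?_ b hb
        intro h hh p hp
        rw [List.mem_singleton.1 hp]
        simp only [horE_val]
        have h3 := tr_iff.1 hh
        have h4 : ∀ i, h i < n := by
          intro i
          obtain ⟨e, he, h5⟩ := tArcs_cov (m := k + 2) (by omega) i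
          rcases hh e he with h6 | h6 <;> rcases h5 with rfl | rfl
          · exact h6.1
          · exact h6.2.1
          · exact h6.2.1
          · exact h6.1
        exact h1 (fun i => ⟨h i, h4 i⟩) h3
  rw [hl]
  refine and_congr_right fun hloop => ?_
  constructor
  · intro hg
    choose g hg using hg
    let f : ℕ → H := fun w => if hw : ∃ x : Fin (k + 1) → Fin n,
      hor n (k + 1) (fun i => (x i : ℕ)) = w then
        g (fun i => hw.choose i.castSucc) (hw.choose (Fin.last k)) else Classical.arbitrary H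
    have hf : ∀ x : Fin (k + 1) → Fin n, f (hor n (k + 1) (fun i => (x i : ℕ))) =
        g (fun i => x i.castSucc) (x (Fin.last k)) := by
      intro x
      have hw : ∃ x' : Fin (k + 1) → Fin n, hor n (k + 1) (fun i => (x' i : ℕ)) =
          hor n (k + 1) (fun i => (x i : ℕ)) := ⟨x, rfl⟩
      have h1 : f (hor n (k + 1) (fun i => (x i : ℕ))) =
        g (fun i => hw.choose i.castSucc) (hw.choose (Fin.last k)) := dif_pos hw
      have h2 : hw.choose = x := by
        have h3 := hor_inj (k + 1) (fun i => (hw.choose i).2) (fun i => (x i).2) hw.choose_spec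
        funext i
        exact Fin.ext (congrFun h3 i)
      rw [h1, h2]
    refine ⟨f, (key f).2 fun x hx => ?_⟩
    have h1 := hf (fun i => x i.castSucc)
    have h2 := hf (fun i => x (FK.p1 k i))
    rw [h1, h2]
    have h3 := eq_tri x
    rw [h3] at hx
    have h4 := (tr_tri hs' _ _ _).1 hx
    have h5 := hg _ _ _ h4
    have h6 : (fun i : Fin k => x (FK.p1 k i.castSucc)) = fun i => x i.castSucc.castSucc := by
      funext i
      rw [Pool.Agent.H17.FK.p1_castSucc]
    rw [h6, Pool.Agent.H17.FK.p1_last]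
    exact h5
  · rintro ⟨f, hf⟩ q
    have hf := (key f).1 hf
    refine ⟨fun y => f (hor n (k + 1) (fun i => ((Fin.snoc q y : Fin (k + 1) → Fin n) i : ℕ))),
      fun y z hyz => ?_⟩
    have h1 := hf (FK.tri q y z) ((tr_tri hs' q y z).2 hyz)
    have h2 : (fun i : Fin (k + 1) => ((FK.tri q y z i.castSucc : Fin n) : ℕ)) =
        fun i => ((Fin.snoc q y : Fin (k + 1) → Fin n) i : ℕ) := by
      funext i
      exact congrArg Fin.val (congrFun (tri_castSucc q y z) i)
    have h3 : (fun i : Fin (k + 1) => ((FK.tri q y z (FK.p1 k i) : Fin n) : ℕ)) =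
        fun i => ((Fin.snoc q z : Fin (k + 1) → Fin n) i : ℕ) := by
      funext i
      exact congrArg Fin.val (congrFun (tri_p1 q y z) i)
    rw [h2, h3] at h1
    exact h1

end Pool.Agent.H17.PR
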