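import Pool.Agent.H68.IT.M4
import Pool.Agent.H17.PR.Links

set_option autoImplicit false

/-!
# From a digraph given by transitive tournaments with colours of tuples to the template
-/

namespace Pool.Agent.H17.PR

open Function FirstOrder FirstOrder.Language
open Pool.Agent.H1.PNP Pool.Agent.H1.NP
open Pool.Agent.H68.BP (Str IsHom strOf CSP Sig code csp_code Lan lstr graph width_digraph)
open Pool.Agent.H17.DG (IsHomo)
open Pool.Agent.H74.Stub (Atom)
open Pool.Agent.H68.IT (tArcs mem_tArcs tArcs_cov sigE strE cBlk csp_arc manyOne_str)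

section

variable {σ : Sig} {m : ℕ} {V : Type} (ex : V → Pe m)

/-- the rows of an atomic formula -/
def aRw : Atom (Lan σ) V → List (ℕ → Pe m)
  | .bot => []
  | .eq x y => [fun i => if i = 0 then .con 0 else if i = 1 then ex x else ex y]
  | .rel (n := a) R t => [fun i => if i = 0 then .con ((R.1 : ℕ) + 1) else
      if h : i - 1 < a then ex (t ⟨i - 1, h⟩) else .con 0]

/-- the formula is false -/
def aBt : Atom (Lan σ) V → Bool
  | .bot => true
  | .eq _ _ => false
  | .rel _ _ => false

/-- the block of an atomic formula -/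
def aBk (hm : 2 ≤ m) (a : Atom (Lan σ) V) : Blk where
  q := m
  arcs := tArcs m
  cov := tArcs_cov hm
  rows := aRw ex a
  fls := aBt a

variable {A : Type} (𝔸 : Str σ A)

theorem holds_rw {n : ℕ} (f : ℕ → A) (h : Fin m → ℕ) (a : Atom (Lan σ) V) :
    @Atom.Holds (Lan σ) V A (lstr 𝔸) (fun i => f ((ex i).val n h)) a ↔ aBt a = false ∧
      ∀ r ∈ aRw ex a, ∀ l : Fin (sigE σ).m, (r 0).val n h = l →
        strE 𝔸 l (fun i => f ((r (i + 1)).val n h)) := by
  cases a with
  | bot =>
    constructor
    · intro h; exact h.elim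
    · rintro ⟨h, -⟩; cases h
  | eq x y =>
    unfold aRw
    rw [List.forall_mem_singleton]
    constructor
    · intro h1
      refine ⟨rfl, ?_⟩
      intro l hl
      have hl0 : l = (0 : Fin (σ.m + 1)) := by
        apply Fin.ext
        exact hl.symm
      subst hl0
      exact h1
    · rintro ⟨-, h1⟩
      exact h1 (0 : Fin (σ.m + 1)) rfl
  | @rel a R t =>
    obtain ⟨l₀, rfl⟩ := R
    unfold aRw
    rw [List.forall_mem_singleton]
    have hkey : ∀ i : Fin (σ.ar l₀), (Pe.val n h ((fun i : ℕ => if i = 0 then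
        Pe.con ((l₀ : ℕ) + 1) else if h : i - 1 < σ.ar l₀ then ex (t ⟨i - 1, h⟩)
          else Pe.con 0) ((i : ℕ) + 1)) : ℕ) = (ex (t i)).val n h := by
      intro i
      have h1 : (i : ℕ) + 1 - 1 < σ.ar l₀ := by have := i.2; omega
      simp only [Nat.add_one_ne_zero, if_false, dif_pos h1]
      congr 1
    constructor
    · intro h1
      refine ⟨rfl, ?_⟩
      intro l hl
      have hl0 : l = (Fin.succ l₀ : Fin (σ.m + 1)) := by
        apply Fin.ext
        exact hl.symm
      subst hl0
      have h2 : (fun i : Fin (σ.ar l₀) => f (Pe.val n h ((fun i : ℕ => if i = 0 then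
        Pe.con ((l₀ : ℕ) + 1) else if h : i - 1 < σ.ar l₀ then ex (t ⟨i - 1, h⟩)
          else Pe.con 0) ((i : ℕ) + 1)))) = fun i => f ((ex (t i)).val n h) := by
        funext i
        rw [hkey]
      change 𝔸 l₀ (fun i : Fin (σ.ar l₀) => f (Pe.val n h ((fun i : ℕ => if i = 0 then
        Pe.con ((l₀ : ℕ) + 1) else if h : i - 1 < σ.ar l₀ then ex (t ⟨i - 1, h⟩)
          else Pe.con 0) ((i : ℕ) + 1))))
      rw [h2]
      exact h1
    · rintro ⟨-, h1⟩
      have h3 := h1 (Fin.succ l₀ : Fin (σ.m + 1)) rfl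
      change 𝔸 l₀ (fun i : Fin (σ.ar l₀) => f (Pe.val n h ((fun i : ℕ => if i = 0 then
        Pe.con ((l₀ : ℕ) + 1) else if h : i - 1 < σ.ar l₀ then ex (t ⟨i - 1, h⟩)
          else Pe.con 0) ((i : ℕ) + 1)))) at h3
      have h2 : (fun i : Fin (σ.ar l₀) => f (Pe.val n h ((fun i : ℕ => if i = 0 then
        Pe.con ((l₀ : ℕ) + 1) else if h : i - 1 < σ.ar l₀ then ex (t ⟨i - 1, h⟩)
          else Pe.con 0) ((i : ℕ) + 1)))) = fun i => f ((ex (t i)).val n h) := by
        funext i
        rw [hkey]
      rw [h2] at h3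
      exact h3

end

section

variable {σ : Sig} {m k : ℕ} {A : Type} (𝔸 : Str σ A) {K : Type} {R : K → K → Prop}

/-- the expression for a tuple of vertices -/
def tEx (m k : ℕ) (p : Fin (k + 1) → Fin m) : Pe m := horE (k + 1) (fun i => .vx (p i))

/-- the reduction, with variables for tuples of vertices -/
theorem manyOne_tours [Nonempty A] (hm : 2 ≤ m) (l : List (Atom (Lan σ) (Fin (k + 1) → Fin m)))
    (hl : ∀ (X : Type) [Finite X] (F : X → X → Prop), (∃ h : X → K, IsHomo F R h) ↔
      (∀ x y, F x y → ¬ F y x) ∧ ∃ c : (Fin (k + 1) → X) → A, ∀ x : Fin m → X,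
        (∀ i j, i < j → F (x i) (x j)) → ∀ a ∈ l,
          @Atom.Holds (Lan σ) (Fin (k + 1) → Fin m) A (lstr 𝔸)
            (fun p => c (fun i => x (p i))) a) :
    N793a5b8e.ManyOneReducible (CSP (graph R)) (CSP (strE 𝔸)) := by
  classical
  obtain ⟨red, h1, h2, h3⟩ := pat (sigE σ) (cBlk :: l.map (aBk (tEx m k) hm))
  refine manyOne_str h1 fun x => ?_
  by_cases hx : ∃ n L, (∀ c ∈ L, c.length = 3) ∧ code n L = x
  · obtain ⟨n, L, hL, rfl⟩ := hx
    rw [csp_arc R hL, h3 A inferInstance (strE 𝔸) n L hL, hl]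
    have hc : ∀ h : Fin 2 → ℕ, cBlk.Occ n L h ↔ Arc n L (h 0) (h 1) ∧ Arc n L (h 1) (h 0) := by
      intro h
      unfold Blk.Occ cBlk
      simp
    have ha : ∀ (a : Atom (Lan σ) (Fin (k + 1) → Fin m)) (h : Fin m → ℕ),
        (aBk (tEx m k) hm a).Occ n L h ↔ ∀ i j, i < j → Arc n L (h i) (h j) := by
      intro a h
      constructor
      · intro h4 i j hij
        exact h4 (i, j) (mem_tArcs.2 hij)
      · rintro h4 ⟨i, j⟩ he
        exact h4 i j (mem_tArcs.1 he)
    have hlt : ∀ h : Fin m → ℕ, (∀ i j, i < j → Arc n L (h i) (h j)) → ∀ i, h i < n := by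
      intro h h4 i
      obtain ⟨e, he, h5⟩ := tArcs_cov hm i
      have h6 := h4 e.1 e.2 (mem_tArcs.1 he)
      rcases h5 with rfl | rfl
      · exact h6.1
      · exact h6.2.1
    have hval : ∀ (h : Fin m → ℕ) (p : Fin (k + 1) → Fin m), (tEx m k p).val n h =
        hor n (k + 1) (fun i => h (p i)) := by
      intro h p
      exact horE_val (k + 1) (fun i => Pe.vx (p i))
    constructor
    · rintro ⟨h4, c, h5⟩
      let f : ℕ → A := fun w => if hw : ∃ x : Fin (k + 1) → Fin n,
        hor n (k + 1) (fun i => (x i : ℕ)) = w then c hw.choose else Classical.arbitrary A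
      have hf : ∀ x : Fin (k + 1) → Fin n, f (hor n (k + 1) (fun i => (x i : ℕ))) = c x := by
        intro x
        have hw : ∃ x' : Fin (k + 1) → Fin n, hor n (k + 1) (fun i => (x' i : ℕ)) =
            hor n (k + 1) (fun i => (x i : ℕ)) := ⟨x, rfl⟩
        have h1 : f (hor n (k + 1) (fun i => (x i : ℕ))) = c hw.choose := dif_pos hw
        have h2 : hw.choose = x := by
          have h3 := hor_inj (k + 1) (fun i => (hw.choose i).2) (fun i => (x i).2) hw.choose_spec
          funext i
          exact Fin.ext (congrFun h3 i)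
        rw [h1, h2]
      have key : ∀ a ∈ l, ∀ h : Fin m → ℕ, (∀ i j, i < j → Arc n L (h i) (h j)) →
          @Atom.Holds (Lan σ) (Fin (k + 1) → Fin m) A (lstr 𝔸)
            (fun p => f ((tEx m k p).val n h)) a := by
        intro a ha h h6
        have h7 := hlt h h6
        have h8 := h5 (fun i => ⟨h i, h7 i⟩) (fun i j hij => h6 i j hij) a ha
        have h9 : (fun p => f ((tEx m k p).val n h)) =
            fun p : Fin (k + 1) → Fin m => c (fun i => ⟨h (p i), h7 (p i)⟩) := by
          funext p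
          rw [hval]
          exact hf (fun i => ⟨h (p i), h7 (p i)⟩)
        rw [h9]
        exact h8
      refine ⟨?_, f, ?_⟩
      · intro b hb hf h hocc
        rw [List.mem_cons] at hb
        rcases hb with rfl | hb
        · have h6 := (hc h).1 hocc
          exact h4 ⟨h (0 : Fin 2), h6.1.1⟩ ⟨h (1 : Fin 2), h6.1.2.1⟩ h6.1 h6.2
        · obtain ⟨a, ha', rfl⟩ := List.mem_map.1 hb
          have h6 := (holds_rw (tEx m k) 𝔸 (n := n) f h a).1 (key a ha' h ((ha a h).1 hocc))
          have h7 : aBt a = true := hf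
          exact Bool.noConfusion (h6.1.symm.trans h7)
      · intro b hb h hocc r hr l' hl'
        rw [List.mem_cons] at hb
        rcases hb with rfl | hb
        · exact absurd hr List.not_mem_nil
        · obtain ⟨a, ha', rfl⟩ := List.mem_map.1 hb
          have h6 := (holds_rw (tEx m k) 𝔸 (n := n) f h a).1 (key a ha' h ((ha a h).1 hocc))
          exact h6.2 r hr l' hl'
    · rintro ⟨h4, f, h5⟩
      refine ⟨?_, fun q => f (hor n (k + 1) (fun i => (q i : ℕ))), ?_⟩
      · intro u v huv hvu
        exact h4 cBlk (List.mem_cons_self ..) rfl ![u, v] ((hc _).2 ⟨huv, hvu⟩)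
      · intro x hx a ha'
        have hocc : (aBk (tEx m k) hm a).Occ n L (fun i => (x i : ℕ)) := (ha a _).2 hx
        have hmem : aBk (tEx m k) hm a ∈ cBlk :: l.map (aBk (tEx m k) hm) :=
          List.mem_cons_of_mem _ (List.mem_map.2 ⟨a, ha', rfl⟩)
        have h6 := (holds_rw (tEx m k) 𝔸 (n := n) f (fun i => (x i : ℕ)) a).2 ⟨?_, ?_⟩
        · have h9 : (fun p => f ((tEx m k p).val n (fun i => (x i : ℕ)))) =
              fun p : Fin (k + 1) → Fin m => f (hor n (k + 1) (fun i => (x (p i) : ℕ))) := by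
            funext p
            rw [hval]
          rw [h9] at h6
          exact h6
        · by_contra hb
          rw [Bool.not_eq_false] at hb
          exact h4 _ hmem hb _ hocc
        · intro r hr l' hl'
          exact h5 _ hmem _ hocc r hr l' hl'
  · constructor
    · intro h
      exact absurd h (Pool.Agent.H68.IT.csp_bad R hx)
    · intro h
      rw [h2 A (strE 𝔸) x hx] at h
      cases h

end

end Pool.Agent.H17.PR
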