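import Pool.Agent.H68.BG.Fin
import Pool.Agent.H68.IT.M3
import Pool.Agent.H17.FK.Main
import Pool.Agent.H17.PR.Join
import Pool.Agent.H17.PR.Links
import Pool.Agent.H17.PR.Tour
import Pool.Agent.H17.PR.Cons
import Pool.Agent.H17.PR.ConsO

set_option autoImplicit false

/-!
# Templates and homogeneous graphs: equivalence of the constraint satisfaction problems
-/

namespace Pool.Agent.H17.PR

open FirstOrder FirstOrder.Language Function
open Pool.Agent.H17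
open Pool.Agent.H68.BP hiding Atom

theorem manyOne_trans {L M N : N68a2faeb.DecisionProblem} (h1 : N793a5b8e.ManyOneReducible L M)
    (h2 : N793a5b8e.ManyOneReducible M N) : N793a5b8e.ManyOneReducible L N := by
  obtain ⟨f, ⟨hf⟩, h⟩ := h1
  obtain ⟨g, ⟨hg⟩, h'⟩ := h2
  exact ⟨fun x => g (f x), Pool.Agent.H1.Comp.comp_polyTime hf hg,
    fun x => (h x).trans (h' (f x))⟩

/-- Undirected graphs. -/
theorem exists_hgraph (k : ℕ) {σ : Sig} {D : Type} {𝔸 : Str σ D} (h : InScope 𝔸) :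
    ∃ (G : Type) (E : G → G → Prop), GraphTemplate E ∧ KHomogeneous k E ∧
      (PPConstructsK3 (graph E) ↔ PPConstructsK3 𝔸) ∧
      N793a5b8e.ManyOneReducible (CSP 𝔸) (CSP (graph E)) ∧
      N793a5b8e.ManyOneReducible (CSP (graph E)) (CSP 𝔸) := by
  have hDne : Nonempty D := h.2.1
  obtain ⟨K, R, G, E, hKne, ⟨hsc, hinf, hsym, hirr, hno⟩, hK3, ⟨S, hS, hhom⟩,
    ⟨m, l, hm, htour⟩, hgd⟩ := @construction2 (Lan σ) D (lstr 𝔸) (inScope_lan h)
  obtain ⟨g, hg⟩ := reduces_of_hom 𝔸 1 S hS hhom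
  obtain ⟨G', E', hsc', hinf', hsym', hirr', hkh', hno', -, hK3', hJ, hL⟩ :=
    FK.link_graph k hsc hsym hirr
  have hG : Nonempty G := inferInstance
  have hG' : Nonempty G' := inferInstance
  refine ⟨G', E', ⟨inScope_back hsc', hinf', hsym', hirr', noAlg_graph hno'⟩,
    kHomog_back hkh', ⟨fun h5 => k3_lan (hK3.1 (hK3'.1 (k3_graph h5))),
      fun h5 => k3_graph' (hK3'.2 (hK3.2 (k3_lan' h5)))⟩, ?_, ?_⟩
  · exact manyOne_trans (manyOne_of_gadget hirr hg) (manyOne_join hJ)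
  · refine manyOne_trans (manyOne_links hL) ?_
    refine manyOne_trans (Pool.Agent.H68.IT.m3 hgd) ?_
    refine manyOne_trans (Pool.Agent.H68.IT.manyOne_eq _ (graph R)) ?_
    exact manyOne_trans (manyOne_tours 𝔸 hm l htour) (Pool.Agent.H68.IT.manyOne_eq _ 𝔸)

/-- Oriented graphs. -/
theorem exists_horiented (k : ℕ) {σ : Sig} {D : Type} {𝔸 : Str σ D} (h : InScope 𝔸) :
    ∃ (G : Type) (E : G → G → Prop), OrientedTemplate k E ∧
      (PPConstructsK3 (graph E) ↔ PPConstructsK3 𝔸) ∧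
      N793a5b8e.ManyOneReducible (CSP 𝔸) (CSP (graph E)) ∧
      N793a5b8e.ManyOneReducible (CSP (graph E)) (CSP 𝔸) := by
  have hDne : Nonempty D := h.2.1
  obtain ⟨G, E, ⟨hsc, hinf, hasym, hkh, hno⟩, hK3, ⟨S, hS, hhom⟩, m, l, hm, htour⟩ :=
    @constructionO2 k (Lan σ) D (lstr 𝔸) (inScope_lan h)
  obtain ⟨g, hg⟩ := reduces_of_hom 𝔸 (k + 1) S hS hhom
  have hG : Nonempty G := inferInstance
  have hirr : ∀ x, ¬ E x x := fun x h => hasym x x h h
  refine ⟨G, E, ⟨inScope_back hsc, hinf, hasym, kHomog_back hkh, noAlg_graph hno⟩,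
    ⟨fun h5 => k3_lan (hK3.1 (k3_graph h5)), fun h5 => k3_graph' (hK3.2 (k3_lan' h5))⟩,
    manyOne_of_gadget hirr hg, ?_⟩
  exact manyOne_trans (manyOne_tours 𝔸 hm l htour) (Pool.Agent.H68.IT.manyOne_eq _ 𝔸)

end Pool.Agent.H17.PR
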