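import Pool.Agent.H68.BG.Main

set_option autoImplicit false

/-!
# Pattern programs: definitions

A pattern program transforms instances of the constraint satisfaction problems of digraphs into
instances over a signature `τ`: for every occurrence of a pattern (a fixed digraph) in the given
instance some constraints are printed.
-/

namespace Pool.Agent.H17.PR

open Pool.Agent.H1.NP Pool.Agent.H1.PNP Pool.Agent.H68.OQP Pool.Agent.H68.BP
open Pool.Agent.H68.NPH hiding prs
open Function

/-- expressions over the vertices of a pattern; `bd` stands for the number of variables of the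
given instance -/
inductive Pe (q : ℕ) : Type
  | con (c : ℕ) : Pe q
  | vx (v : Fin q) : Pe q
  | bd : Pe q
  | add (a b : Pe q) : Pe q
  | mul (a b : Pe q) : Pe q

/-- the value of an expression -/
def Pe.val {q : ℕ} (n : ℕ) (h : Fin q → ℕ) : Pe q → ℕ
  | .con c => c
  | .vx v => h v
  | .bd => n
  | .add a b => a.val n h + b.val n h
  | .mul a b => a.val n h * b.val n h

/-- A block of a pattern program: the arcs of the pattern (every vertex is in some arc), the rows
which are printed for every occurrence of the pattern, and `fls`: the output is not the code of an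
instance if the pattern occurs. -/
structure Blk where
  q : ℕ
  arcs : List (Fin q × Fin q)
  cov : ∀ v, ∃ e ∈ arcs, e.1 = v ∨ e.2 = v
  rows : List (ℕ → Pe q)
  fls : Bool

/-- the arcs of an instance over the signature of digraphs -/
def Arc (n : ℕ) (L : List (List ℕ)) (u v : ℕ) : Prop := u < n ∧ v < n ∧ [0, u, v] ∈ L

/-- `h` is an occurrence of the pattern -/
def Blk.Occ (b : Blk) (n : ℕ) (L : List (List ℕ)) (h : Fin b.q → ℕ) : Prop :=
  ∀ e ∈ b.arcs, Arc n L (h e.1) (h e.2)

/-- the target statement of the module `Pat` -/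
def T_PAT : Prop :=
  ∀ (τ : Sig) (Bs : List Blk), ∃ red : List Bool → List Bool,
    PolyOn (fun w => w) (fun w => w) red ∧
    (∀ (B : Type) (𝔹 : Str τ B) (x : List Bool),
      (¬ ∃ n L, (∀ c ∈ L, c.length = 3) ∧ code n L = x) → CSP 𝔹 (red x) = false) ∧
    ∀ (B : Type) (_ : Nonempty B) (𝔹 : Str τ B) (n : ℕ) (L : List (List ℕ)),
      (∀ c ∈ L, c.length = 3) →
      (CSP 𝔹 (red (code n L)) = true ↔
        (∀ b ∈ Bs, b.fls = true → ∀ h, ¬ b.Occ n L h) ∧
        ∃ f : ℕ → B, ∀ b ∈ Bs, ∀ h, b.Occ n L h → ∀ r ∈ b.rows, ∀ l : Fin τ.m,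
          (r 0).val n h = l → 𝔹 l (fun i => f ((r (i + 1)).val n h)))

end Pool.Agent.H17.PR
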