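import Pool.Agent.H17.PR.Defs

set_option autoImplicit false

/-!
# Generators of rows of numbers
-/

namespace Pool.Agent.H17.PR

open Pool.Agent.H1.NP Pool.Agent.H1.PNP Pool.Agent.H68.OQP Pool.Agent.H68.BP
open Pool.Agent.H68.NPH hiding prs
open Function

/-- generators of lists of rows -/
inductive Kg : Type
  | nil : Kg
  | row (f : List Ex) : Kg
  | seq (g h : Kg) : Kg
  | cond (c : Cd) (g : Kg) : Kg
  | loop (e : Ex) (g : Kg) : Kg

open Classical in
/-- the list of rows generated -/
noncomputable def Kg.out (l : List ℕ) : List ℕ → Kg → List (List ℕ)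
  | _, .nil => []
  | env, .row f => [f.map (fun e => e.val l env)]
  | env, .seq g h => g.out l env ++ h.out l env
  | env, .cond c g => if c.tv l env then g.out l env else []
  | env, .loop e g => (List.range (e.val l env)).flatMap (fun i => g.out l (i :: env))

/-- the generator which prints every row by `p` -/
def Kg.pr (p : List Ex → Gn) : Kg → Gn
  | .nil => .nil
  | .row f => p f
  | .seq g h => .seq (g.pr p) (h.pr p)
  | .cond c g => c.iteG (g.pr p) .nil
  | .loop e g => .loop e (g.pr p)

theorem Kg.pr_out (l : List ℕ) (p : List Ex → Gn) (P : List ℕ → List Bool)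
    (hp : ∀ f env, (p f).out l env = P (f.map (fun e => e.val l env))) (g : Kg) :
    ∀ env, (g.pr p).out l env = (g.out l env).flatMap P := by
  induction g with
  | nil => intro env; rfl
  | row f => intro env; simp [Kg.pr, Kg.out, hp]
  | seq g h ihg ihh =>
    intro env
    simp only [Kg.pr, Gn.out, Kg.out, ihg, ihh, List.flatMap_append]
  | cond c g ih =>
    intro env
    simp only [Kg.pr, Cd.iteG_out, Kg.out, ih]
    split_ifs <;> rfl
  | loop e g ih =>
    intro env
    simp only [Kg.pr, Gn.out, Kg.out, ih]
    induction List.range (e.val l env) with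
    | nil => rfl
    | cons i L ih2 =>
      simp only [List.flatMap_cons, List.flatMap_append, ih2]

/-- prints the entries of a row -/
def p1 (f : List Ex) : Gn := f.foldr (fun e g => .seq (.seq (.un e) (.bit false)) g) .nil

theorem p1_out (l : List ℕ) (f : List Ex) (env : List ℕ) :
    (p1 f).out l env = unary (f.map (fun e => e.val l env)) := by
  induction f with
  | nil => rfl
  | cons e f ih =>
    have : (p1 (e :: f)).out l env =
        (List.replicate (e.val l env) true ++ [false]) ++ (p1 f).out l env := rfl
    rw [this, ih]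
    rfl

/-- prints the sum of the entries of a row -/
def p2 (f : List Ex) : Gn := f.foldr (fun e g => .seq (.un e) g) .nil

theorem p2_out (l : List ℕ) (f : List Ex) (env : List ℕ) :
    (p2 f).out l env = List.replicate (f.map (fun e => e.val l env)).sum true := by
  induction f with
  | nil => rfl
  | cons e f ih =>
    have : (p2 (e :: f)).out l env = List.replicate (e.val l env) true ++ (p2 f).out l env := rfl
    rw [this, ih, List.map_cons, List.sum_cons, List.replicate_add]

/-- prints one for every row -/
def p3 (_ : List Ex) : Gn := .bit true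

theorem p3_out (l : List ℕ) (f : List Ex) (env : List ℕ) :
    (p3 f).out l env = (fun _ => [true]) (f.map (fun e => e.val l env)) := rfl

variable {l env : List ℕ}

theorem Kg.mem_nil {x : List ℕ} : x ∈ Kg.out l env .nil ↔ False := by
  simp [Kg.out]

theorem Kg.mem_row {f : List Ex} {x : List ℕ} :
    x ∈ Kg.out l env (.row f) ↔ x = f.map (fun e => e.val l env) := by
  simp [Kg.out]

theorem Kg.mem_seq {g h : Kg} {x : List ℕ} :
    x ∈ Kg.out l env (.seq g h) ↔ x ∈ Kg.out l env g ∨ x ∈ Kg.out l env h := by
  simp [Kg.out]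

theorem Kg.mem_cond {c : Cd} {g : Kg} {x : List ℕ} :
    x ∈ Kg.out l env (.cond c g) ↔ c.tv l env ∧ x ∈ Kg.out l env g := by
  simp only [Kg.out]
  split_ifs with h <;> simp [h]

theorem Kg.mem_loop {e : Ex} {g : Kg} {x : List ℕ} :
    x ∈ Kg.out l env (.loop e g) ↔ ∃ i < e.val l env, x ∈ Kg.out l (i :: env) g := by
  simp [Kg.out, List.mem_flatMap]

/-- generators indexed by a list -/
def Kg.many {α : Type} (L : List α) (g : α → Kg) : Kg := L.foldr (fun a h => .seq (g a) h) .nil

theorem Kg.mem_many {α : Type} {L : List α} {g : α → Kg} {x : List ℕ} :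
    x ∈ Kg.out l env (Kg.many L g) ↔ ∃ a ∈ L, x ∈ Kg.out l env (g a) := by
  induction L with
  | nil => simp [Kg.many, Kg.out]
  | cons a L ih =>
    have : x ∈ Kg.out l env (Kg.many (a :: L) g) ↔
        x ∈ Kg.out l env (.seq (g a) (Kg.many L g)) := Iff.rfl
    rw [this, Kg.mem_seq, ih]
    simp

/-- nested loops -/
def nest (e : ℕ) : ℕ → Kg → Kg
  | 0, g => g
  | d + 1, g => nest e d (.loop (.inp (.con e)) g)

theorem mem_nest {e : ℕ} {x : List ℕ} : ∀ (d : ℕ) (g : Kg) (env : List ℕ),
    x ∈ Kg.out l env (nest e d g) ↔ ∃ js : List ℕ, js.length = d ∧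
      (∀ j ∈ js, j < l.getD e 0) ∧ x ∈ Kg.out l (js ++ env) g := by
  intro d
  induction d with
  | zero =>
    intro g env
    constructor
    · intro h
      exact ⟨[], rfl, by simp, h⟩
    · rintro ⟨js, h1, -, h3⟩
      have : js = [] := List.length_eq_zero_iff.1 h1
      subst this
      exact h3
  | succ d ih =>
    intro g env
    unfold nest
    rw [ih]
    constructor
    · rintro ⟨js, h1, h2, h3⟩
      rw [Kg.mem_loop] at h3
      obtain ⟨i, h4, h5⟩ := h3
      refine ⟨i :: js, by simp [h1], ?_, h5⟩
      intro j hj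
      rw [List.mem_cons] at hj
      rcases hj with rfl | hj
      · exact h4
      · exact h2 j hj
    · rintro ⟨js, h1, h2, h3⟩
      obtain ⟨i, js', rfl⟩ := List.exists_cons_of_length_eq_add_one h1
      refine ⟨js', by simpa using h1, fun j hj => h2 j (by simp [hj]), ?_⟩
      rw [Kg.mem_loop]
      exact ⟨i, h2 i (by simp), h3⟩

end Pool.Agent.H17.PR
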