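import Pool.Agent.H17.PR.Kg

set_option autoImplicit false

/-!
# Pattern programs
-/

namespace Pool.Agent.H17.PR

open Pool.Agent.H1.NP Pool.Agent.H1.PNP Pool.Agent.H68.OQP Pool.Agent.H68.BP
open Pool.Agent.H68.NPH hiding prs
open Function

/-! ### The generator of a block -/

/-- the entry with number `i` of the constraint with the number given by the index `p` -/
def en (p i : ℕ) : Ex := .inp (.add (.con (3 + i)) (.mul (.con 3) (.var p)))

/-- an incidence of the vertex `v` -/
theorem Blk.inc (b : Blk) (v : Fin b.q) : ∃ (p : Fin b.arcs.length) (s : Bool),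
    (if s then (b.arcs[p]).2 else (b.arcs[p]).1) = v := by
  obtain ⟨e, he, h⟩ := b.cov v
  obtain ⟨p, hp, rfl⟩ := List.getElem_of_mem he
  rcases h with h | h
  · exact ⟨⟨p, hp⟩, false, h⟩
  · exact ⟨⟨p, hp⟩, true, h⟩

/-- the vertex `v` as an expression -/
noncomputable def Blk.vE (b : Blk) (v : Fin b.q) : Ex :=
  en (b.inc v).choose (if (b.inc v).choose_spec.choose then 2 else 1)

/-- expressions over a pattern as expressions of the generators -/
noncomputable def Blk.toEx (b : Blk) : Pe b.q → Ex
  | .con c => .con c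
  | .vx v => b.vE v
  | .bd => .inp (.con 2)
  | .add a a' => .add (b.toEx a) (b.toEx a')
  | .mul a a' => .mul (b.toEx a) (b.toEx a')

/-- the condition on the arc with number `p` -/
noncomputable def Blk.cP (b : Blk) (p : Fin b.arcs.length) : Cd :=
  ((Cd.le (.add (.con 1) (.mul (.con 3) (.add (.var p) (.con 1)))) (.inp (.con 1))).and
    (Cd.eq (en p 0) (.con 0))).and
  (((Cd.lt (en p 1) (.inp (.con 2))).and (Cd.lt (en p 2) (.inp (.con 2)))).and
    ((Cd.eq (en p 1) (b.vE (b.arcs[p]).1)).and (Cd.eq (en p 2) (b.vE (b.arcs[p]).2))))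

/-- the generator of the rows of a block -/
noncomputable def Blk.gR (b : Blk) (W : ℕ) (rows : List (ℕ → Pe b.q)) : Kg :=
  nest 1 b.arcs.length (.cond (Cd.all (List.finRange b.arcs.length) b.cP)
    (Kg.many rows (fun r => .row ((List.range W).map (fun i => b.toEx (r i))))))

section

variable {n : ℕ} {L : List (List ℕ)} (hL : ∀ c ∈ L, c.length = 3)

include hL

theorem Blk.mem_gR (b : Blk) (W : ℕ) (rows : List (ℕ → Pe b.q)) (x : List ℕ) :
    x ∈ (b.gR W rows).out (ph 3 (code n L)) [] ↔ ∃ h, b.Occ n L h ∧ ∃ r ∈ rows,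
      x = (List.range W).map (fun i => (r i).val n h) := by
  classical
  obtain ⟨M, hM, h0, h1, h2, h3, h4⟩ := ph_vals (σ := Sig.digraph) (n := n) (L := L) (by
    rw [width_digraph]; exact hL)
  rw [width_digraph] at hM h1 h4
  have hM' : ph 3 (code n L) = M := hM
  have h1' : M.getD 1 0 = 1 + L.length * 3 := h1
  have h4' : ∀ (j : ℕ) (hj : j < L.length) (i : ℕ), i < 3 →
      M.getD (3 + i + 3 * j) 0 = (L[j]).getD i 0 := by
    intro j hj i hi
    have := h4 j hj i hi
    rw [show 3 + i + 3 * j = 3 + (2 + 1) * j + i by omega]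
    exact this
  rw [hM']
  clear hM hM' h1 h4 h3 h0
  have hrow : ∀ (j : ℕ) (hj : j < L.length), L[j] = [M.getD (3 + 0 + 3 * j) 0,
      M.getD (3 + 1 + 3 * j) 0, M.getD (3 + 2 + 3 * j) 0] := by
    intro j hj
    have h5 := hL _ (List.getElem_mem hj)
    rw [h4' j hj 0 (by omega), h4' j hj 1 (by omega), h4' j hj 2 (by omega)]
    obtain ⟨a, a', a'', h6⟩ := List.length_eq_three.1 h5
    rw [h6]
    rfl
  have hval : ∀ (js : List ℕ) (h : Fin b.q → ℕ), (∀ v, (b.vE v).val M js = h v) →
      ∀ e : Pe b.q, (b.toEx e).val M js = e.val n h := by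
    intro js h hh e
    induction e with
    | con c => rfl
    | vx v => exact hh v
    | bd => exact h2
    | add a a' iha iha' =>
      have : (b.toEx (a.add a')).val M js = (b.toEx a).val M js + (b.toEx a').val M js := rfl
      rw [this, iha, iha']
      rfl
    | mul a a' iha iha' =>
      have : (b.toEx (a.mul a')).val M js = (b.toEx a).val M js * (b.toEx a').val M js := rfl
      rw [this, iha, iha']
      rfl
  have hcP : ∀ (js : List ℕ) (p : Fin b.arcs.length), (b.cP p).tv M js ↔
      (1 + 3 * (js.getD p 0 + 1) ≤ M.getD 1 0 ∧ M.getD (3 + 0 + 3 * js.getD p 0) 0 = 0) ∧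
      (M.getD (3 + 1 + 3 * js.getD p 0) 0 < n ∧ M.getD (3 + 2 + 3 * js.getD p 0) 0 < n) ∧
      M.getD (3 + 1 + 3 * js.getD p 0) 0 = (b.vE (b.arcs[p]).1).val M js ∧
      M.getD (3 + 2 + 3 * js.getD p 0) 0 = (b.vE (b.arcs[p]).2).val M js := by
    intro js p
    unfold Blk.cP
    simp only [tv_and, tv_le, tv_eq, tv_lt, Ex.val, en, h2]
  unfold Blk.gR
  rw [mem_nest]
  constructor
  · rintro ⟨js, -, -, hx⟩
    rw [List.append_nil, Kg.mem_cond, Kg.mem_many, tv_all] at hx
    obtain ⟨hc, r, hr, hx⟩ := hx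
    rw [Kg.mem_row] at hx
    refine ⟨fun v => (b.vE v).val M js, ?_, r, hr, ?_⟩
    · intro e he
      obtain ⟨p, hp, rfl⟩ := List.getElem_of_mem he
      obtain ⟨⟨c1, c2⟩, ⟨c3, c4⟩, c5, c6⟩ := (hcP js ⟨p, hp⟩).1 (hc _ (List.mem_finRange _))
      simp only at c1 c2 c3 c4 c5 c6
      have hj : js.getD p 0 < L.length := by
        rw [h1'] at c1
        omega
      have c5' : M.getD (3 + 1 + 3 * js.getD p 0) 0 = (b.vE (b.arcs[p]).1).val M js := c5
      have c6' : M.getD (3 + 2 + 3 * js.getD p 0) 0 = (b.vE (b.arcs[p]).2).val M js := c6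
      refine ⟨?_, ?_, ?_⟩
      · simp only
        rw [← c5']
        exact c3
      · simp only
        rw [← c6']
        exact c4
      · simp only
        rw [← c5', ← c6']
        have h6 := hrow _ hj
        rw [c2] at h6
        rw [← h6]
        exact List.getElem_mem hj
    · rw [hx, List.map_map]
      apply List.map_congr_left
      intro i _
      exact hval js _ (fun _ => rfl) (r i)
  · rintro ⟨h, hocc, r, hr, hx⟩
    have hch : ∀ p : Fin b.arcs.length, ∃ j, ∃ hj : j < L.length,
        L[j] = [0, h (b.arcs[p]).1, h (b.arcs[p]).2] := by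
      intro p
      obtain ⟨-, -, h5⟩ := hocc _ (List.getElem_mem p.2)
      obtain ⟨j, hj, h6⟩ := List.getElem_of_mem h5
      exact ⟨j, hj, h6⟩
    choose j hj hjj using hch
    have hget : ∀ p : Fin b.arcs.length, (List.ofFn j).getD p 0 = j p := by
      intro p
      rw [List.getD_eq_getElem?_getD, List.getElem?_ofFn]
      simp
    have hent : ∀ p : Fin b.arcs.length, M.getD (3 + 0 + 3 * (List.ofFn j).getD p 0) 0 = 0 ∧
        M.getD (3 + 1 + 3 * (List.ofFn j).getD p 0) 0 = h (b.arcs[p]).1 ∧
        M.getD (3 + 2 + 3 * (List.ofFn j).getD p 0) 0 = h (b.arcs[p]).2 := by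
      intro p
      rw [hget]
      have h6 := hrow _ (hj p)
      rw [hjj p] at h6
      injection h6 with e1 h6
      injection h6 with e2 h6
      injection h6 with e3 h6
      exact ⟨e1.symm, e2.symm, e3.symm⟩
    have hgen : ∀ (p : Fin b.arcs.length) (t : Bool) (v : Fin b.q),
        (if t then (b.arcs[p]).2 else (b.arcs[p]).1) = v →
        (en p (if t then 2 else 1)).val M (List.ofFn j) = h v := by
      rintro p t v rfl
      obtain ⟨-, e1, e2⟩ := hent p
      cases t with
      | false => exact e1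
      | true => exact e2
    have hv : ∀ v, (b.vE v).val M (List.ofFn j) = h v := fun v =>
      hgen _ _ _ (b.inc v).choose_spec.choose_spec
    refine ⟨List.ofFn j, by simp, ?_, ?_⟩
    · intro i hi
      rw [List.mem_ofFn] at hi
      obtain ⟨p, rfl⟩ := hi
      rw [h1']
      have := hj p
      omega
    · rw [List.append_nil, Kg.mem_cond, Kg.mem_many, tv_all]
      refine ⟨?_, r, hr, ?_⟩
      · intro p _
        rw [hcP]
        obtain ⟨e0, e1, e2⟩ := hent p
        obtain ⟨o1, o2, -⟩ := hocc _ (List.getElem_mem p.2)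
        refine ⟨⟨?_, e0⟩, ⟨?_, ?_⟩, ?_, ?_⟩
        · rw [hget, h1']
          have := hj p
          omega
        · rw [e1]
          exact o1
        · rw [e2]
          exact o2
        · rw [e1, hv]
        · rw [e2, hv]
      · rw [Kg.mem_row, hx, List.map_map]
        apply List.map_congr_left
        intro i _
        exact (hval _ h hv (r i)).symm

end

end Pool.Agent.H17.PR
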