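import Pool.Agent.H68.IT.M4

set_option autoImplicit false

/-!
# Pattern programs from digraphs to digraphs
-/

namespace Pool.Agent.H17.PR

open Pool.Agent.H1.NP Pool.Agent.H1.PNP Pool.Agent.H68.OQP Pool.Agent.H68.BP
open Pool.Agent.H68.NPH hiding prs
open Function
open Pool.Agent.H17.DG (IsHomo)

/-- the row of an arc -/
def r3 {q : ℕ} (a b : Pe q) : ℕ → Pe q := fun i => if i = 0 then .con 0 else if i = 1 then a else b

/-- a block printing arcs -/
structure DBlk where
  q : ℕ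
  arcs : List (Fin q × Fin q)
  cov : ∀ v, ∃ e ∈ arcs, e.1 = v ∨ e.2 = v
  out : List (Pe q × Pe q)
  fls : Bool

/-- the block -/
def DBlk.toBlk (b : DBlk) : Blk where
  q := b.q
  arcs := b.arcs
  cov := b.cov
  rows := b.out.map (fun p => r3 p.1 p.2)
  fls := b.fls

/-- occurrences -/
def DBlk.Occ (b : DBlk) (n : ℕ) (L : List (List ℕ)) (h : Fin b.q → ℕ) : Prop :=
  ∀ e ∈ b.arcs, Arc n L (h e.1) (h e.2)

theorem row3 {q : ℕ} {G : Type} (E : G → G → Prop) (n : ℕ) (h : Fin q → ℕ) (f : ℕ → G)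
    (a b : Pe q) : (∀ l : Fin Sig.digraph.m, (r3 a b 0).val n h = l →
      graph E l (fun i => f ((r3 a b (i + 1)).val n h))) ↔ E (f (a.val n h)) (f (b.val n h)) := by
  constructor
  · intro h1
    exact h1 (0 : Fin 1) rfl
  · intro h1 l _
    exact h1

/-- Pattern programs from digraphs to digraphs. -/
theorem patD (Bs : List DBlk) : ∃ red : List Bool → List Bool,
    PolyOn (fun w => w) (fun w => w) red ∧
    (∀ (G : Type) (E : G → G → Prop) (x : List Bool),
      (¬ ∃ n L, (∀ c ∈ L, c.length = 3) ∧ code n L = x) → CSP (graph E) (red x) = false) ∧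
    ∀ (G : Type) (_ : Nonempty G) (E : G → G → Prop) (n : ℕ) (L : List (List ℕ)),
      (∀ c ∈ L, c.length = 3) →
      (CSP (graph E) (red (code n L)) = true ↔
        (∀ b ∈ Bs, b.fls = true → ∀ h, ¬ b.Occ n L h) ∧
        ∃ f : ℕ → G, ∀ b ∈ Bs, ∀ h, b.Occ n L h → ∀ p ∈ b.out,
          E (f (p.1.val n h)) (f (p.2.val n h))) := by
  obtain ⟨red, h1, h2, h3⟩ := pat Sig.digraph (Bs.map DBlk.toBlk)
  refine ⟨red, h1, fun G E x hx => h2 G (graph E) x hx, fun G hG E n L hL => ?_⟩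
  rw [h3 G hG (graph E) n L hL]
  refine and_congr ?_ (exists_congr fun f => ?_)
  · constructor
    · intro h b hb
      exact h b.toBlk (List.mem_map_of_mem hb)
    · intro h b hb
      obtain ⟨b', hb', rfl⟩ := List.mem_map.1 hb
      exact h b' hb'
  · constructor
    · intro h b hb h' hocc p hp
      have h4 := h b.toBlk (List.mem_map_of_mem hb) h' hocc (r3 p.1 p.2)
        (List.mem_map.2 ⟨p, hp, rfl⟩)
      exact (row3 E n h' f p.1 p.2).1 h4
    · intro h b hb h' hocc r hr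
      obtain ⟨b', hb', rfl⟩ := List.mem_map.1 hb
      obtain ⟨p, hp, rfl⟩ := List.mem_map.1 hr
      exact (row3 E n h' f p.1 p.2).2 (h b' hb' h' hocc p hp)

/-- many-one reductions from pattern programs -/
theorem manyOne_patD (Bs : List DBlk) {H G : Type} [hG : Nonempty G] {E : H → H → Prop}
    {F : G → G → Prop} (h : ∀ (n : ℕ) (L : List (List ℕ)), (∀ c ∈ L, c.length = 3) →
      ((∃ f : Fin n → H, IsHomo (fun u v : Fin n => Arc n L u v) E f) ↔
        (∀ b ∈ Bs, b.fls = true → ∀ h, ¬ b.Occ n L h) ∧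
        ∃ f : ℕ → G, ∀ b ∈ Bs, ∀ h, b.Occ n L h → ∀ p ∈ b.out,
          F (f (p.1.val n h)) (f (p.2.val n h)))) :
    N793a5b8e.ManyOneReducible (CSP (graph E)) (CSP (graph F)) := by
  obtain ⟨red, h1, h2, h3⟩ := patD Bs
  refine Pool.Agent.H68.IT.manyOne_str h1 fun x => ?_
  by_cases hx : ∃ n L, (∀ c ∈ L, c.length = 3) ∧ code n L = x
  · obtain ⟨n, L, hL, rfl⟩ := hx
    rw [h3 G hG F n L hL, Pool.Agent.H68.IT.csp_arc E hL, h n L hL]
  · constructor
    · intro h4
      exact absurd h4 (Pool.Agent.H68.IT.csp_bad E hx)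
    · intro h4
      rw [h2 G F x hx] at h4
      cases h4

end Pool.Agent.H17.PR
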